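import Pool.Agent.Run7.h764.Fin5
set_option autoImplicit false

/-! For a plane set of positive density at infinity and a nondegenerate triangle, the set of
dilation factors `r` for which no congruent copy of the `r`-dilate lies in the set has density
zero. -/

namespace Pool.Agent.Results.MP_76e945_co.AlmostAllDilates

open MeasureTheory Filter Topology Run7.h764
open scoped ENNReal

/-- identification of the plane with the complex numbers -/
noncomputable def eC : ℂ ≃ₗᵢ[ℝ] EuclideanSpace ℝ (Fin 2) := Complex.orthonormalBasisOneI.repr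

/-- a good complex pattern gives an isometry of the plane -/
lemma good_of_pattern {E : Set (EuclideanSpace ℝ (Fin 2))} {x1 x2 x3 : EuclideanSpace ℝ (Fin 2)}
    (h12 : eC.symm x2 ≠ eC.symm x1) {r : ℝ}
    (h : ¬ badc ((eC.symm x3 - eC.symm x1) / (eC.symm x2 - eC.symm x1)) (eC ⁻¹' E)
      (‖eC.symm x2 - eC.symm x1‖ * r)) :
    ∃ φ : EuclideanSpace ℝ (Fin 2) ≃ᵢ EuclideanSpace ℝ (Fin 2),
      φ (r • x1) ∈ E ∧ φ (r • x2) ∈ E ∧ φ (r • x3) ∈ E := by
  set z1 := eC.symm x1 with hz1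
  set z2 := eC.symm x2 with hz2
  set z3 := eC.symm x3 with hz3
  have hd : z2 - z1 ≠ 0 := sub_ne_zero.2 h12
  unfold badc at h
  push Not at h
  obtain ⟨x, u, hu, hx1, hx2, hx3⟩ := h
  set v : ℂ := u * ‖z2 - z1‖ / (z2 - z1) with hv
  have hvn : ‖v‖ = 1 := by
    rw [hv, norm_div, norm_mul, hu, one_mul, Complex.norm_real, norm_norm,
      div_self (norm_ne_zero_iff.2 hd)]
  set c : Circle := ⟨v, by simp [Submonoid.unitSphere, hvn]⟩ with hc
  set ψ : ℂ ≃ᵢ ℂ := (rotation c).toIsometryEquiv.trans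
    (IsometryEquiv.addRight (x - v * (r * z1))) with hψ
  have hψe : ∀ z : ℂ, ψ z = v * z + (x - v * (r * z1)) := fun z => rfl
  refine ⟨(eC.symm.toIsometryEquiv.trans ψ).trans eC.toIsometryEquiv, ?_, ?_, ?_⟩
  · have e1 : ((eC.symm.toIsometryEquiv.trans ψ).trans eC.toIsometryEquiv) (r • x1) = eC x := by
      have : ψ (eC.symm (r • x1)) = x := by
        rw [hψe, map_smul, Complex.real_smul, ← hz1]
        ring
      exact congrArg eC this
    rw [e1]
    exact hx1
  · have e1 : ((eC.symm.toIsometryEquiv.trans ψ).trans eC.toIsometryEquiv) (r • x2) =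
        eC (x + ((‖z2 - z1‖ * r : ℝ) : ℂ) * u) := by
      have : ψ (eC.symm (r • x2)) = x + ((‖z2 - z1‖ * r : ℝ) : ℂ) * u := by
        rw [hψe, map_smul, Complex.real_smul, ← hz2]
        have h1 : v * (z2 - z1) = u * ‖z2 - z1‖ := by
          rw [hv]
          field_simp
        push_cast
        linear_combination (r : ℂ) * h1
      exact congrArg eC this
    rw [e1]
    exact hx2
  · have e1 : ((eC.symm.toIsometryEquiv.trans ψ).trans eC.toIsometryEquiv) (r • x3) =
        eC (x + (z3 - z1) / (z2 - z1) * (((‖z2 - z1‖ * r : ℝ) : ℂ) * u)) := by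
      have : ψ (eC.symm (r • x3)) = x + (z3 - z1) / (z2 - z1) *
          (((‖z2 - z1‖ * r : ℝ) : ℂ) * u) := by
        rw [hψe, map_smul, Complex.real_smul, ← hz3, hv]
        push_cast
        field_simp
        ring
      exact congrArg eC this
    rw [e1]
    exact hx3

lemma zeta_im {x1 x2 x3 : EuclideanSpace ℝ (Fin 2)}
    (hx : ¬ Collinear ℝ ({x1, x2, x3} : Set (EuclideanSpace ℝ (Fin 2)))) :
    eC.symm x2 ≠ eC.symm x1 ∧
      ((eC.symm x3 - eC.symm x1) / (eC.symm x2 - eC.symm x1)).im ≠ 0 := by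
  have h12 : eC.symm x2 ≠ eC.symm x1 := by
    intro h
    apply hx
    have : x2 = x1 := eC.symm.injective h
    rw [this]
    simp only [Set.insert_eq_of_mem, Set.mem_insert_iff, true_or]
    exact collinear_pair ℝ x1 x3
  refine ⟨h12, fun him => hx ?_⟩
  have hd : eC.symm x2 - eC.symm x1 ≠ 0 := sub_ne_zero.2 h12
  set ζ := (eC.symm x3 - eC.symm x1) / (eC.symm x2 - eC.symm x1) with hζ
  have h1 : eC.symm x3 - eC.symm x1 = (ζ.re : ℝ) • (eC.symm x2 - eC.symm x1) := by
    have h2 : (ζ.re : ℂ) = ζ := by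
      apply Complex.ext <;> simp [him]
    rw [Complex.real_smul, h2, hζ]
    field_simp
  have h3 : x3 - x1 = (ζ.re : ℝ) • (x2 - x1) := by
    apply eC.symm.injective
    rw [map_smul, map_sub, map_sub, h1]
  rw [collinear_iff_of_mem (p₀ := x1) (by simp)]
  refine ⟨x2 - x1, ?_⟩
  intro p hp
  simp only [Set.mem_insert_iff, Set.mem_singleton_iff] at hp
  rcases hp with rfl | rfl | rfl
  · exact ⟨0, by simp⟩
  · exact ⟨1, by simp⟩
  · refine ⟨ζ.re, ?_⟩
    rw [← h3]
    simp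

/-- **Theorem.** Let `E` be a measurable plane set of positive density at infinity and let
`x1, x2, x3` be noncollinear. Then the set of `r > 0` such that `E` contains no set congruent to
`{r x1, r x2, r x3}` has density zero. -/
theorem result (E : Set (EuclideanSpace ℝ (Fin 2))) (hE : MeasurableSet E)
    (hd : ∃ c : ℝ, 0 < c ∧ ∀ R : ℝ, ∃ r : ℝ, R ≤ r ∧
      ENNReal.ofReal (c * r ^ 2) ≤
        volume (E ∩ Metric.closedBall (0 : EuclideanSpace ℝ (Fin 2)) r))
    (x1 x2 x3 : EuclideanSpace ℝ (Fin 2))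
    (hx : ¬ Collinear ℝ ({x1, x2, x3} : Set (EuclideanSpace ℝ (Fin 2)))) :
    Tendsto (fun T : ℝ => volume {r : ℝ | 0 < r ∧ r ≤ T ∧
        ¬ ∃ φ : EuclideanSpace ℝ (Fin 2) ≃ᵢ EuclideanSpace ℝ (Fin 2),
          φ (r • x1) ∈ E ∧ φ (r • x2) ∈ E ∧ φ (r • x3) ∈ E} / ENNReal.ofReal T)
      atTop (𝓝 0) := by
  obtain ⟨c, hc, hd⟩ := hd
  obtain ⟨h12, hζ⟩ := zeta_im hx
  set ζ := (eC.symm x3 - eC.symm x1) / (eC.symm x2 - eC.symm x1) with hζdef
  set E' : Set ℂ := eC ⁻¹' E with hE'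
  have hmp : MeasurePreserving (⇑eC) volume volume := eC.measurePreserving
  have hE'm : MeasurableSet E' := hmp.measurable hE
  have hd' : ∀ R : ℝ, ∃ r : ℝ, R ≤ r ∧
      ENNReal.ofReal (c * r ^ 2) ≤ volume (E' ∩ Metric.closedBall 0 r) := by
    intro R
    obtain ⟨r, h1, h2⟩ := hd R
    refine ⟨r, h1, h2.trans (le_of_eq ?_)⟩
    have h3 : E' ∩ Metric.closedBall 0 r = eC ⁻¹' (E ∩ Metric.closedBall 0 r) := by
      rw [Set.preimage_inter, LinearIsometryEquiv.preimage_closedBall, map_zero]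
    rw [h3]
    exact (hmp.measure_preimage_emb eC.toHomeomorph.measurableEmbedding _).symm
  set L : ℝ := ‖eC.symm x2 - eC.symm x1‖ with hL
  have hLpos : 0 < L := norm_pos_iff.2 (sub_ne_zero.2 h12)
  have hcore := fun (η : ℝ) (hη : 0 < η) => core hζ hE'm hc hd' hη
  rw [ENNReal.tendsto_nhds_zero]
  intro ε hε
  by_cases hεt : ε = ∞
  · rw [hεt]
    exact Filter.Eventually.of_forall fun _ => le_top
  set e : ℝ := ε.toReal with he
  have he0 : 0 < e := ENNReal.toReal_pos hε.ne' hεt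
  have hεe : ε = ENNReal.ofReal e := (ENNReal.ofReal_toReal hεt).symm
  obtain ⟨T0, hT0, hT⟩ := bad_density hcore he0
  filter_upwards [Filter.eventually_ge_atTop (max 1 (T0 / L))] with T hTT
  have hT1 : 0 < T := zero_lt_one.trans_le ((le_max_left _ _).trans hTT)
  have hT2 : T0 ≤ L * T := by
    have := (le_max_right _ _).trans hTT
    rw [div_le_iff₀ hLpos] at this
    linarith
  refine ENNReal.div_le_of_le_mul ?_
  have hsub : {r : ℝ | 0 < r ∧ r ≤ T ∧
        ¬ ∃ φ : EuclideanSpace ℝ (Fin 2) ≃ᵢ EuclideanSpace ℝ (Fin 2),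
          φ (r • x1) ∈ E ∧ φ (r • x2) ∈ E ∧ φ (r • x3) ∈ E} ⊆
      (fun r => L * r) ⁻¹' {t : ℝ | 0 < t ∧ t ≤ L * T ∧ badc ζ E' t} := by
    rintro r ⟨h1, h2, h3⟩
    refine ⟨mul_pos hLpos h1, mul_le_mul_of_nonneg_left h2 hLpos.le, ?_⟩
    by_contra hcon
    exact h3 (good_of_pattern h12 hcon)
  refine (measure_mono hsub).trans ?_
  rw [Real.volume_preimage_mul_left hLpos.ne', abs_of_pos (inv_pos.2 hLpos)]
  refine (mul_le_mul_right (hT (L * T) hT2) _).trans (le_of_eq ?_)
  rw [hεe, ← ENNReal.ofReal_mul (by positivity), ← ENNReal.ofReal_mul he0.le]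
  congr 1
  field_simp

end Pool.Agent.Results.MP_76e945_co.AlmostAllDilates
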